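import Pool.Agent.Helper83.PT.St7

set_option autoImplicit false

/-! Project PT, module AS (helper64). -/

namespace Pool.Agent.Helper83.PT.Helper64

open Pool.Agent.Helper73.DC
open Finset
open scoped Classical

/-- A power of `L` is bounded by a constant times `2 ^ L`, up to the factor `c`. -/
lemma as_pow (c : ℕ) : ∃ N : ℕ, ∀ L : ℕ, N ≤ L → c * L ^ c ≤ 2 ^ L := by
  have h := tendsto_pow_const_div_const_pow_of_one_lt c (one_lt_two : (1 : ℝ) < 2)
  have h2 : Filter.Tendsto (fun n : ℕ => (c : ℝ) * ((n : ℝ) ^ c / 2 ^ n)) Filter.atTop (nhds ((c : ℝ) * 0)) :=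
    h.const_mul _
  rw [mul_zero] at h2
  have h3 := h2.eventually (gt_mem_nhds (zero_lt_one : (0 : ℝ) < 1))
  obtain ⟨N, hN⟩ := Filter.eventually_atTop.mp h3
  refine ⟨N, fun L hL => ?_⟩
  have h4 := hN L hL
  have h5 : (0 : ℝ) < 2 ^ L := by positivity
  rw [← mul_div_assoc, div_lt_one h5] at h4
  exact_mod_cast h4.le

theorem mAS : StAS := by
  intro c
  obtain ⟨N, hN⟩ := as_pow c
  refine ⟨c * N ^ c + c, fun n => ?_⟩
  rcases le_or_gt N (Nat.log 2 n) with h | h
  · rcases Nat.eq_zero_or_pos n with rfl | hn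
    · have h0 : Nat.log 2 0 = 0 := by simp
      rw [h0] at h ⊢
      have hN0 : N = 0 := by omega
      subst hN0
      omega
    · have h1 := hN _ h
      have h2 := Nat.pow_log_le_self 2 (by omega : n ≠ 0)
      omega
  · have h1 : Nat.log 2 n ^ c ≤ N ^ c := Nat.pow_le_pow_left h.le c
    have h2 := Nat.mul_le_mul_left c h1
    omega

end Pool.Agent.Helper83.PT.Helper64
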